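import Pool.Agent.Helper40.CB.HypShell

/-! # Rigidity of the dual hypersimplex (module B2 of MP_745f23_co) -/

set_option autoImplicit false

namespace Pool.Agent.Helper67.CB

open Finset Matrix Module Pool.Agent.Helper40.CB

variable {n k d : ℕ}

/-- the vertices of an octahedron other than the vertex opposite to `K ∪ {i, j}` -/
def V (K : Finset (Fin n)) (i j l p : Fin n) : Fin 5 → Finset (Fin n) :=
  ![insert i (insert j K), insert i (insert l K), insert i (insert p K),
    insert j (insert l K), insert j (insert p K)]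

theorem card_ins2 {K : Finset (Fin n)} (hK : K.card + 2 = k) {x y : Fin n} (hxy : x ≠ y)
    (hx : x ∉ K) (hy : y ∉ K) : (insert x (insert y K)).card = k := by
  rw [card_insert_of_notMem, card_insert_of_notMem hy]
  · omega
  · simp [hx, hxy]

section

variable (hn : n = d + 1)
    (u : Finset (Fin n) → (Fin d → ℚ)) (q : Fin n × Bool → (Fin d → ℚ)) (b : Finset (Fin n) → ℚ)
    (hle : ∀ A : Finset (Fin n), A.card = k → ∀ ρ, q ρ ⬝ᵥ u A ≤ b A)
    (heq : ∀ A : Finset (Fin n), A.card = k → ∀ ρ, q ρ ⬝ᵥ u A = b A ↔ ρ ∈ sgn A)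

include hn hle heq in
theorem dep (K : Finset (Fin n)) (hK : K.card + 2 = k) (i j l p : Fin n)
    (hij : i ≠ j) (hil : i ≠ l) (hip : i ≠ p) (hjl : j ≠ l) (hjp : j ≠ p) (hlp : l ≠ p)
    (hi : i ∉ K) (hj : j ∉ K) (hl : l ∉ K) (hp : p ∉ K) :
    ∃ c : Fin 5 → ℚ, ∑ x, c x • u (V K i j l p x) = 0 ∧ 0 < c 1 ∧ c 2 < 0 ∧ c 3 < 0 ∧
      0 < c 4 := by
  classical
  set Q : Finset (Fin n) := insert i (insert j (insert l (insert p K))) with hQ
  have hQc : Q.card = K.card + 4 := by
    rw [hQ, card_insert_of_notMem, card_insert_of_notMem, card_insert_of_notMem,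
      card_insert_of_notMem hp]
    · simp [hl, hlp]
    · simp [hj, hjl, hjp]
    · simp [hi, hij, hil, hip]
  let S : Finset (Fin n × Bool) :=
    K.image (fun x => (x, true)) ∪ Qᶜ.image (fun x => (x, false))
  have hS : ∀ ρ : Fin n × Bool, ρ ∈ S ↔ (ρ.2 = true ∧ ρ.1 ∈ K) ∨ (ρ.2 = false ∧ ρ.1 ∉ Q) := by
    rintro ⟨x, s⟩
    cases s <;> simp [S]
  have hSc : S.card + 3 = d := by
    have h1 : Disjoint (K.image (fun x => (x, true))) (Qᶜ.image (fun x => (x, false))) := by
      rw [Finset.disjoint_left]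
      rintro ⟨x, s⟩ h1 h2
      simp at h1 h2
      rw [h1.2] at h2
      simp at h2
    have h2 : S.card = K.card + Qᶜ.card := by
      rw [card_union_of_disjoint h1, card_image_of_injective, card_image_of_injective]
      · intro x y h; exact (Prod.mk.inj h).1
      · intro x y h; exact (Prod.mk.inj h).1
    have h3 : Qᶜ.card + Q.card = n := by
      rw [add_comm, card_add_card_compl, Fintype.card_fin]
    omega
  -- the cards
  have cV : ∀ x, (V K i j l p x).card = k := by
    intro x
    fin_cases x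
    · exact card_ins2 hK hij hi hj
    · exact card_ins2 hK hil hi hl
    · exact card_ins2 hK hip hi hp
    · exact card_ins2 hK hjl hj hl
    · exact card_ins2 hK hjp hj hp
  let Φ : ((Fin d → ℚ) × ℚ) →ₗ[ℚ] (S → ℚ) :=
    { toFun := fun w ρ => w.2 - q ρ.1 ⬝ᵥ w.1
      map_add' := by
        intro w w'
        funext ρ
        simp only [Prod.fst_add, Prod.snd_add, Pi.add_apply, dotProduct_add]
        ring
      map_smul' := by
        intro c w
        funext ρ
        simp only [Prod.smul_fst, Prod.smul_snd, Pi.smul_apply, dotProduct_smul, smul_eq_mul,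
          RingHom.id_apply]
        ring }
  have hΦ : ∀ A : Finset (Fin n), ∀ ρ : S, Φ (u A, b A) ρ = b A - q ρ.1 ⬝ᵥ u A := fun A ρ => rfl
  have hsurj : LinearMap.range Φ = ⊤ := by
    rw [eq_top_iff, ← (Pi.basisFun ℚ S).span_eq, Submodule.span_le]
    rintro _ ⟨ρ0, rfl⟩
    -- find A
    have hA : ∃ A : Finset (Fin n), A.card = k ∧ (ρ0.1 ∉ sgn A) ∧ ∀ ρ ∈ S, ρ ≠ ρ0.1 → ρ ∈ sgn A := by
      obtain ⟨⟨x, s⟩, hρ⟩ := ρ0
      have hρ' := (hS _).1 hρ
      cases s
      · have hx : x ∉ Q := by simpa using hρ'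
        have hxK : x ∉ K := fun h => hx (by simp [hQ, h])
        have hxi : x ≠ i := fun h => hx (by simp [hQ, h])
        refine ⟨insert x (insert i K), card_ins2 hK hxi hxK hi, ?_, ?_⟩
        · simp [mem_sgn_false]
        · rintro ⟨y, s⟩ hy hne
          have hy' := (hS _).1 hy
          cases s
          · have hyQ : y ∉ Q := by simpa using hy'
            rw [mem_sgn_false]
            intro h
            simp only [mem_insert] at h
            rcases h with h | h | h
            · exact hne (by rw [h])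
            · exact hyQ (by simp [hQ, h])
            · exact hyQ (by simp [hQ, h])
          · have hyK : y ∈ K := by simpa using hy'
            rw [mem_sgn_true]; simp [hyK]
      · have hx : x ∈ K := by simpa using hρ'
        have hxi : x ≠ i := fun h => hi (h ▸ hx)
        have hxj : x ≠ j := fun h => hj (h ▸ hx)
        have hxl : x ≠ l := fun h => hl (h ▸ hx)
        refine ⟨insert i (insert j (insert l (K.erase x))), ?_, ?_, ?_⟩
        · rw [card_insert_of_notMem, card_insert_of_notMem, card_insert_of_notMem,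
            card_erase_of_mem hx]
          · have : 0 < K.card := card_pos.2 ⟨x, hx⟩
            omega
          · simp [hl]
          · simp [hj, hjl]
          · simp [hi, hij, hil]
        · simp [mem_sgn_true, hxi, hxj, hxl]
        · rintro ⟨y, s⟩ hy hne
          have hy' := (hS _).1 hy
          cases s
          · have hyQ : y ∉ Q := by simpa using hy'
            rw [mem_sgn_false]
            intro h
            simp only [mem_insert, mem_erase] at h
            apply hyQ
            simp only [hQ, mem_insert]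
            tauto
          · have hyK : y ∈ K := by simpa using hy'
            have hyx : y ≠ x := fun h => hne (by rw [h])
            rw [mem_sgn_true]; simp [hyK, hyx]
    obtain ⟨A, hAc, hA0, hA1⟩ := hA
    have hne : b A - q ρ0.1 ⬝ᵥ u A ≠ 0 := by
      intro h
      apply hA0
      rw [← heq A hAc]
      linarith
    refine ⟨(b A - q ρ0.1 ⬝ᵥ u A)⁻¹ • (u A, b A), ?_⟩
    rw [LinearMap.map_smul]
    funext ρ
    rw [Pi.smul_apply, hΦ, Pi.basisFun_apply]
    by_cases h : ρ = ρ0
    · subst h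
      simp [smul_eq_mul, inv_mul_cancel₀ hne]
    · have : q ρ.1 ⬝ᵥ u A = b A := (heq A hAc _).2 (hA1 ρ.1 ρ.2 (fun h' => h (Subtype.ext h')))
      rw [Pi.single_eq_of_ne h, this]
      simp
  have hker : finrank ℚ (LinearMap.ker Φ) = 4 := by
    have h1 := LinearMap.finrank_range_add_finrank_ker Φ
    rw [hsurj, finrank_top, finrank_fintype_fun_eq_card, Fintype.card_coe, finrank_prod,
      finrank_fintype_fun_eq_card, Fintype.card_fin, finrank_self] at h1
    omega
  have hmem : ∀ x, (u (V K i j l p x), b (V K i j l p x)) ∈ LinearMap.ker Φ := by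
    intro x
    rw [LinearMap.mem_ker]
    funext ρ
    rw [hΦ]
    have hρ := (hS _).1 ρ.2
    have : ρ.1 ∈ sgn (V K i j l p x) := by
      obtain ⟨⟨y, s⟩, hρm⟩ := ρ
      cases s
      · have hy : y ∉ Q := by simpa using hρ
        rw [mem_sgn_false]
        intro h
        apply hy
        simp only [hQ, mem_insert]
        fin_cases x <;> simp [V] at h <;> tauto
      · have hy : y ∈ K := by simpa using hρ
        rw [mem_sgn_true]
        fin_cases x <;> simp [V, hy]
    rw [← heq _ (cV x)] at this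
    simp [this]
  let v : Fin 5 → LinearMap.ker Φ := fun x => ⟨_, hmem x⟩
  have hnl : ¬ LinearIndependent ℚ v := by
    intro h
    have := h.fintype_card_le_finrank
    rw [hker] at this
    simp at this
  obtain ⟨c, hc, x0, hx0⟩ := Fintype.not_linearIndependent_iff.1 hnl
  have hc' : ∑ x, c x • ((u (V K i j l p x), b (V K i j l p x)) : (Fin d → ℚ) × ℚ) = 0 := by
    have := congrArg (Submodule.subtype _) hc
    rw [map_sum] at this
    simpa [v] using this
  have hcu : ∑ x, c x • u (V K i j l p x) = 0 := by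
    have := congrArg Prod.fst hc'
    rw [Prod.fst_sum] at this
    simpa using this
  have hcb : ∑ x, c x * b (V K i j l p x) = 0 := by
    have := congrArg Prod.snd hc'
    rw [Prod.snd_sum] at this
    simpa using this
  -- the slack relation
  have hslack : ∀ ρ, ∑ x, c x * (b (V K i j l p x) - q ρ ⬝ᵥ u (V K i j l p x)) = 0 := by
    intro ρ
    have h1 : q ρ ⬝ᵥ (∑ x, c x • u (V K i j l p x)) = 0 := by rw [hcu]; simp
    rw [dotProduct_sum] at h1
    simp only [dotProduct_smul, smul_eq_mul] at h1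
    simp only [mul_sub, sum_sub_distrib, hcb, h1, sub_zero]
  have hz : ∀ x ρ, ρ ∈ sgn (V K i j l p x) →
      b (V K i j l p x) - q ρ ⬝ᵥ u (V K i j l p x) = 0 := by
    intro x ρ h
    rw [← heq _ (cV x)] at h
    linarith
  have hpos : ∀ x ρ, ρ ∉ sgn (V K i j l p x) →
      0 < b (V K i j l p x) - q ρ ⬝ᵥ u (V K i j l p x) := by
    intro x ρ h
    have h1 := hle _ (cV x) ρ
    rcases h1.lt_or_eq with h2 | h2
    · linarith
    · exact absurd ((heq _ (cV x) ρ).1 h2) h
  -- relations
  have key : ∀ ρ, c 0 * (b (V K i j l p 0) - q ρ ⬝ᵥ u (V K i j l p 0))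
      + c 1 * (b (V K i j l p 1) - q ρ ⬝ᵥ u (V K i j l p 1))
      + c 2 * (b (V K i j l p 2) - q ρ ⬝ᵥ u (V K i j l p 2))
      + c 3 * (b (V K i j l p 3) - q ρ ⬝ᵥ u (V K i j l p 3))
      + c 4 * (b (V K i j l p 4) - q ρ ⬝ᵥ u (V K i j l p 4)) = 0 := by
    intro ρ
    have := hslack ρ
    rw [Fin.sum_univ_five] at this
    exact this
  have r1 := key (i, true)
  have r2 := key (j, true)
  have r3 := key (l, false)
  have r4 := key (p, false)
  have r5 := key (i, false)
  have m10 := hz 0 (i, true) (by simp [mem_sgn_true, V])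
  have m11 := hz 1 (i, true) (by simp [mem_sgn_true, V])
  have m12 := hz 2 (i, true) (by simp [mem_sgn_true, V])
  have m13 := hpos 3 (i, true) (by simp [mem_sgn_true, V, hij, hil, hi])
  have m14 := hpos 4 (i, true) (by simp [mem_sgn_true, V, hij, hip, hi])
  have m20 := hz 0 (j, true) (by simp [mem_sgn_true, V])
  have m21 := hpos 1 (j, true) (by simp [mem_sgn_true, V, hij.symm, hjl, hj])
  have m22 := hpos 2 (j, true) (by simp [mem_sgn_true, V, hij.symm, hjp, hj])
  have m23 := hz 3 (j, true) (by simp [mem_sgn_true, V])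
  have m24 := hz 4 (j, true) (by simp [mem_sgn_true, V])
  have m30 := hz 0 (l, false) (by simp [mem_sgn_false, V, hil.symm, hjl.symm, hl])
  have m31 := hpos 1 (l, false) (by simp [mem_sgn_false, V])
  have m32 := hz 2 (l, false) (by simp [mem_sgn_false, V, hil.symm, hlp, hl])
  have m33 := hpos 3 (l, false) (by simp [mem_sgn_false, V])
  have m34 := hz 4 (l, false) (by simp [mem_sgn_false, V, hjl.symm, hlp, hl])
  have m40 := hz 0 (p, false) (by simp [mem_sgn_false, V, hip.symm, hjp.symm, hp])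
  have m41 := hz 1 (p, false) (by simp [mem_sgn_false, V, hip.symm, hlp.symm, hp])
  have m42 := hpos 2 (p, false) (by simp [mem_sgn_false, V])
  have m43 := hz 3 (p, false) (by simp [mem_sgn_false, V, hjp.symm, hlp.symm, hp])
  have m44 := hpos 4 (p, false) (by simp [mem_sgn_false, V])
  have m50 := hpos 0 (i, false) (by simp [mem_sgn_false, V])
  rw [m10, m11, m12] at r1
  rw [m20, m23, m24] at r2
  rw [m30, m32, m34] at r3
  rw [m40, m41, m43] at r4
  -- c1 ≠ 0
  have hc1 : c 1 ≠ 0 := by
    intro h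
    have h2 : c 2 = 0 := by
      rw [h] at r2
      have : c 2 * (b (V K i j l p 2) - q (j, true) ⬝ᵥ u (V K i j l p 2)) = 0 := by linarith
      rcases mul_eq_zero.1 this with h3 | h3
      · exact h3
      · exact absurd h3 m22.ne'
    have h3 : c 3 = 0 := by
      rw [h] at r3
      have : c 3 * (b (V K i j l p 3) - q (l, false) ⬝ᵥ u (V K i j l p 3)) = 0 := by linarith
      rcases mul_eq_zero.1 this with h3 | h3
      · exact h3
      · exact absurd h3 m33.ne'
    have h4 : c 4 = 0 := by
      rw [h2] at r4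
      have : c 4 * (b (V K i j l p 4) - q (p, false) ⬝ᵥ u (V K i j l p 4)) = 0 := by linarith
      rcases mul_eq_zero.1 this with h3 | h3
      · exact h3
      · exact absurd h3 m44.ne'
    have h0 : c 0 = 0 := by
      rw [h, h2, h3, h4] at r5
      have : c 0 * (b (V K i j l p 0) - q (i, false) ⬝ᵥ u (V K i j l p 0)) = 0 := by linarith
      rcases mul_eq_zero.1 this with h3 | h3
      · exact h3
      · exact absurd h3 m50.ne'
    apply hx0
    fin_cases x0
    · exact h0
    · exact h
    · exact h2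
    · exact h3
    · exact h4
  rcases lt_or_gt_of_ne hc1 with h1 | h1
  · refine ⟨fun x => - c x, ?_, ?_, ?_, ?_, ?_⟩
    · simp only [neg_smul, sum_neg_distrib, hcu, neg_zero]
    · show 0 < - c 1
      linarith
    · show - c 2 < 0
      have : 0 < c 2 * (b (V K i j l p 2) - q (j, true) ⬝ᵥ u (V K i j l p 2)) := by
        have := mul_neg_of_neg_of_pos h1 m21
        linarith
      have := (pos_iff_pos_of_mul_pos this).2 m22
      linarith
    · show - c 3 < 0
      have : 0 < c 3 * (b (V K i j l p 3) - q (l, false) ⬝ᵥ u (V K i j l p 3)) := by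
        have := mul_neg_of_neg_of_pos h1 m31
        linarith
      have := (pos_iff_pos_of_mul_pos this).2 m33
      linarith
    · show 0 < - c 4
      have h2 : 0 < c 2 := by
        have : 0 < c 2 * (b (V K i j l p 2) - q (j, true) ⬝ᵥ u (V K i j l p 2)) := by
          have := mul_neg_of_neg_of_pos h1 m21
          linarith
        exact (pos_iff_pos_of_mul_pos this).2 m22
      have : 0 < (- c 4) * (b (V K i j l p 4) - q (p, false) ⬝ᵥ u (V K i j l p 4)) := by
        have := mul_pos h2 m42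
        linarith
      exact (pos_iff_pos_of_mul_pos this).2 m44
  · have h2 : c 2 < 0 := by
      have : 0 < (- c 2) * (b (V K i j l p 2) - q (j, true) ⬝ᵥ u (V K i j l p 2)) := by
        have := mul_pos h1 m21
        linarith
      have := (pos_iff_pos_of_mul_pos this).2 m22
      linarith
    refine ⟨c, hcu, h1, h2, ?_, ?_⟩
    · have : 0 < (- c 3) * (b (V K i j l p 3) - q (l, false) ⬝ᵥ u (V K i j l p 3)) := by
        have := mul_pos h1 m31
        linarith
      have := (pos_iff_pos_of_mul_pos this).2 m33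
      linarith
    · have : 0 < c 4 * (b (V K i j l p 4) - q (p, false) ⬝ᵥ u (V K i j l p 4)) := by
        have := mul_neg_of_neg_of_pos h2 m42
        linarith
      exact (pos_iff_pos_of_mul_pos this).2 m44

theorem bil (m : Finset (Fin n) → (Fin d → ℚ)) {ι κ : Type} [Fintype ι] [Fintype κ]
    (X : ι → Finset (Fin n)) (Y : κ → Finset (Fin n)) (c : ι → ℚ) (c' : κ → ℚ)
    (h : ∑ x, c x • u (X x) = 0) (h' : ∑ y, c' y • u (Y y) = 0) :
    ∑ x, ∑ y, c x * c' y * (m (X x) ⬝ᵥ u (Y y) + m (Y y) ⬝ᵥ u (X x)) = 0 := by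
  have e1 : ∀ x, ∑ y, c' y * (m (X x) ⬝ᵥ u (Y y)) = 0 := by
    intro x
    have : m (X x) ⬝ᵥ ∑ y, c' y • u (Y y) = 0 := by rw [h']; simp
    rw [dotProduct_sum] at this
    simpa only [dotProduct_smul, smul_eq_mul] using this
  have e2 : ∀ y, ∑ x, c x * (m (Y y) ⬝ᵥ u (X x)) = 0 := by
    intro y
    have : m (Y y) ⬝ᵥ ∑ x, c x • u (X x) = 0 := by rw [h]; simp
    rw [dotProduct_sum] at this
    simpa only [dotProduct_smul, smul_eq_mul] using this
  simp only [mul_add, sum_add_distrib]
  have f1 : ∑ x, ∑ y, c x * c' y * (m (X x) ⬝ᵥ u (Y y)) = 0 := by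
    apply sum_eq_zero
    intro x _
    simp only [mul_assoc]
    rw [← mul_sum, e1, mul_zero]
  have f2 : ∑ x, ∑ y, c x * c' y * (m (Y y) ⬝ᵥ u (X x)) = 0 := by
    rw [sum_comm]
    apply sum_eq_zero
    intro y _
    have : ∀ x, c x * c' y * (m (Y y) ⬝ᵥ u (X x)) = c' y * (c x * (m (Y y) ⬝ᵥ u (X x))) :=
      fun x => by ring
    simp only [this]
    rw [← mul_sum, e2, mul_zero]
  rw [f1, f2, add_zero]

include hn hle heq in
/-- the octahedron relation -/
theorem oct (m : Finset (Fin n) → (Fin d → ℚ))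
    (h0 : ∀ A : Finset (Fin n), A.card = k → m A ⬝ᵥ u A = 0)
    (h1 : ∀ A B : Finset (Fin n), A.card = k → B.card = k → (A ∩ B).card + 1 = k →
      m A ⬝ᵥ u B + m B ⬝ᵥ u A = 0)
    (K : Finset (Fin n)) (hK : K.card + 2 = k) (i j l p : Fin n)
    (hij : i ≠ j) (hil : i ≠ l) (hip : i ≠ p) (hjl : j ≠ l) (hjp : j ≠ p) (hlp : l ≠ p)
    (hi : i ∉ K) (hj : j ∉ K) (hl : l ∉ K) (hp : p ∉ K) :
    ∃ a b : ℚ, 0 < a ∧ 0 < b ∧
      a * (m (insert i (insert l K)) ⬝ᵥ u (insert j (insert p K))
        + m (insert j (insert p K)) ⬝ᵥ u (insert i (insert l K)))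
      + b * (m (insert i (insert p K)) ⬝ᵥ u (insert j (insert l K))
        + m (insert j (insert l K)) ⬝ᵥ u (insert i (insert p K))) = 0 := by
  obtain ⟨c, hc, c1, c2, c3, c4⟩ := dep hn u q b hle heq K hK i j l p hij hil hip hjl hjp hlp
    hi hj hl hp
  have hb := bil u m (V K i j l p) (V K i j l p) c c hc hc
  have adj : ∀ x y z : Fin n, x ≠ y → x ≠ z → y ≠ z → x ∉ K → y ∉ K → z ∉ K →
      m (insert x (insert y K)) ⬝ᵥ u (insert x (insert z K))
      + m (insert x (insert z K)) ⬝ᵥ u (insert x (insert y K)) = 0 := by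
    intro x y z hxy hxz hyz hx hy hz
    apply h1 _ _ (card_ins2 hK hxy hx hy) (card_ins2 hK hxz hx hz)
    have : insert x (insert y K) ∩ insert x (insert z K) = insert x K := by
      ext w
      simp only [mem_inter, mem_insert]
      constructor
      · rintro ⟨h1, h2⟩
        rcases h1 with h | h | h
        · exact Or.inl h
        · rcases h2 with h' | h' | h'
          · exact Or.inl h'
          · exact absurd (h.symm.trans h') hyz
          · exact Or.inr h'
        · exact Or.inr h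
      · rintro (h | h)
        · exact ⟨Or.inl h, Or.inl h⟩
        · exact ⟨Or.inr (Or.inr h), Or.inr (Or.inr h)⟩
    rw [this, card_insert_of_notMem hx]
    omega
  have sw : ∀ x y : Fin n, insert x (insert y K) = insert y (insert x K) :=
    fun x y => Finset.insert_comm x y K
  have s00 := h0 _ (card_ins2 hK hij hi hj)
  have s11 := h0 _ (card_ins2 hK hil hi hl)
  have s22 := h0 _ (card_ins2 hK hip hi hp)
  have s33 := h0 _ (card_ins2 hK hjl hj hl)
  have s44 := h0 _ (card_ins2 hK hjp hj hp)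
  have s01 := adj i j l hij hil hjl hi hj hl
  have s02 := adj i j p hij hip hjp hi hj hp
  have s12 := adj i l p hil hip hlp hi hl hp
  have s03 := adj j i l hij.symm hjl hil hj hi hl
  have s04 := adj j i p hij.symm hjp hip hj hi hp
  have s34 := adj j l p hjl hjp hlp hj hl hp
  have s13 := adj l i j hil.symm hjl.symm hij hl hi hj
  have s24 := adj p i j hip.symm hjp.symm hij hp hi hj
  rw [sw j i] at s03 s04
  rw [sw l i, sw l j] at s13
  rw [sw p i, sw p j] at s24
  refine ⟨2 * (c 1 * c 4), 2 * (c 2 * c 3), by positivity, ?_, ?_⟩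
  · have := mul_pos_of_neg_of_neg c2 c3
    linarith
  · rw [Fin.sum_univ_five] at hb
    simp only [Fin.sum_univ_five] at hb
    have v0 : V K i j l p 0 = insert i (insert j K) := rfl
    have v1 : V K i j l p 1 = insert i (insert l K) := rfl
    have v2 : V K i j l p 2 = insert i (insert p K) := rfl
    have v3 : V K i j l p 3 = insert j (insert l K) := rfl
    have v4 : V K i j l p 4 = insert j (insert p K) := rfl
    rw [v0, v1, v2, v3, v4] at hb
    linear_combination hb - 2 * (c 0 * c 0) * s00 - 2 * (c 1 * c 1) * s11 - 2 * (c 2 * c 2) * s22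
      - 2 * (c 3 * c 3) * s33 - 2 * (c 4 * c 4) * s44
      - 2 * (c 0 * c 1) * s01 - 2 * (c 0 * c 2) * s02 - 2 * (c 1 * c 2) * s12
      - 2 * (c 0 * c 3) * s03 - 2 * (c 0 * c 4) * s04 - 2 * (c 3 * c 4) * s34
      - 2 * (c 1 * c 3) * s13 - 2 * (c 2 * c 4) * s24

theorem three_zero {x y z a1 b1 a2 b2 a3 b3 : ℚ} (ha1 : 0 < a1) (hb1 : 0 < b1) (ha2 : 0 < a2)
    (hb2 : 0 < b2) (ha3 : 0 < a3) (hb3 : 0 < b3) (h1 : a1 * y + b1 * z = 0)
    (h2 : a2 * x + b2 * z = 0) (h3 : a3 * x + b3 * y = 0) : x = 0 := by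
  rcases lt_trichotomy x 0 with h | h | h
  · exfalso
    have hz : 0 < b2 * z := by have := mul_neg_of_pos_of_neg ha2 h; linarith
    have hy : 0 < b3 * y := by have := mul_neg_of_pos_of_neg ha3 h; linarith
    have hz' := (pos_iff_pos_of_mul_pos hz).1 hb2
    have hy' := (pos_iff_pos_of_mul_pos hy).1 hb3
    have := mul_pos ha1 hy'
    have := mul_pos hb1 hz'
    linarith
  · exact h
  · exfalso
    have hz : 0 < b2 * (-z) := by have := mul_pos ha2 h; linarith
    have hy : 0 < b3 * (-y) := by have := mul_pos ha3 h; linarith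
    have hz' := (pos_iff_pos_of_mul_pos hz).1 hb2
    have hy' := (pos_iff_pos_of_mul_pos hy).1 hb3
    have := mul_pos ha1 hy'
    have := mul_pos hb1 hz'
    linarith

include hn hle heq in
theorem dist2 (m : Finset (Fin n) → (Fin d → ℚ))
    (h0 : ∀ A : Finset (Fin n), A.card = k → m A ⬝ᵥ u A = 0)
    (h1 : ∀ A B : Finset (Fin n), A.card = k → B.card = k → (A ∩ B).card + 1 = k →
      m A ⬝ᵥ u B + m B ⬝ᵥ u A = 0)
    (A B : Finset (Fin n)) (hA : A.card = k) (hB : B.card = k) (hAB : (A ∩ B).card + 2 = k) :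
    m A ⬝ᵥ u B + m B ⬝ᵥ u A = 0 := by
  have cA : (A \ B).card = 2 := by
    have := card_sdiff_add_card_inter A B
    omega
  have cB : (B \ A).card = 2 := by
    have := card_sdiff_add_card_inter B A
    rw [inter_comm] at this
    omega
  obtain ⟨i, j, hij, hA2⟩ := card_eq_two.1 cA
  obtain ⟨l, p, hlp, hB2⟩ := card_eq_two.1 cB
  set K := A ∩ B with hKdef
  have iA : i ∈ A \ B := by rw [hA2]; simp
  have jA : j ∈ A \ B := by rw [hA2]; simp
  have lB : l ∈ B \ A := by rw [hB2]; simp
  have pB : p ∈ B \ A := by rw [hB2]; simp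
  rw [mem_sdiff] at iA jA lB pB
  have eA : A = insert i (insert j K) := by
    ext w
    have := Finset.ext_iff.1 hA2 w
    simp only [mem_sdiff, mem_insert, mem_singleton] at this
    simp only [mem_insert, hKdef, mem_inter]
    constructor
    · intro h
      by_cases h' : w ∈ B
      · exact Or.inr (Or.inr ⟨h, h'⟩)
      · rcases this.1 ⟨h, h'⟩ with h | h
        · exact Or.inl h
        · exact Or.inr (Or.inl h)
    · rintro (h | h | h)
      · rw [h]; exact iA.1
      · rw [h]; exact jA.1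
      · exact h.1
  have eB : B = insert l (insert p K) := by
    ext w
    have := Finset.ext_iff.1 hB2 w
    simp only [mem_sdiff, mem_insert, mem_singleton] at this
    simp only [mem_insert, hKdef, mem_inter]
    constructor
    · intro h
      by_cases h' : w ∈ A
      · exact Or.inr (Or.inr ⟨h', h⟩)
      · rcases this.1 ⟨h, h'⟩ with h | h
        · exact Or.inl h
        · exact Or.inr (Or.inl h)
    · rintro (h | h | h)
      · rw [h]; exact lB.1
      · rw [h]; exact pB.1
      · exact h.2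
  have hil : i ≠ l := fun h => iA.2 (h ▸ lB.1)
  have hip : i ≠ p := fun h => iA.2 (h ▸ pB.1)
  have hjl : j ≠ l := fun h => jA.2 (h ▸ lB.1)
  have hjp : j ≠ p := fun h => jA.2 (h ▸ pB.1)
  have hi : i ∉ K := fun h => iA.2 (mem_inter.1 h).2
  have hj : j ∉ K := fun h => jA.2 (mem_inter.1 h).2
  have hl : l ∉ K := fun h => lB.2 (mem_inter.1 h).1
  have hp : p ∉ K := fun h => pB.2 (mem_inter.1 h).1
  clear_value K
  subst eA eB
  have sw : ∀ x y : Fin n, insert x (insert y K) = insert y (insert x K) :=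
    fun x y => Finset.insert_comm x y K
  obtain ⟨a1, b1, ha1, hb1, e1⟩ := oct hn u q b hle heq m h0 h1 K hAB i j l p hij hil hip hjl hjp
    hlp hi hj hl hp
  obtain ⟨a2, b2, ha2, hb2, e2⟩ := oct hn u q b hle heq m h0 h1 K hAB i l j p hil hij hip
    hjl.symm hlp hjp hi hl hj hp
  obtain ⟨a3, b3, ha3, hb3, e3⟩ := oct hn u q b hle heq m h0 h1 K hAB i p j l hip hij hil
    hjp.symm hlp.symm hjl hi hp hj hl
  rw [sw l j] at e2
  rw [sw p l, sw p j] at e3
  exact three_zero ha1 hb1 ha2 hb2 ha3 hb3 e1 e2 e3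

include hn hle heq in
theorem step (m : Finset (Fin n) → (Fin d → ℚ)) (A B : Finset (Fin n)) (hA : A.card = k)
    (hB : B.card = k) (hAB : (A ∩ B).card + 3 ≤ k)
    (ih : ∀ X Y : Finset (Fin n), X.card = k → Y.card = k → (A ∩ B).card < (X ∩ Y).card →
      m X ⬝ᵥ u Y + m Y ⬝ᵥ u X = 0) :
    m A ⬝ᵥ u B + m B ⬝ᵥ u A = 0 := by
  have cA : 2 < (A \ B).card := by
    have := card_sdiff_add_card_inter A B
    omega
  have cB : 2 < (B \ A).card := by
    have := card_sdiff_add_card_inter B A
    rw [inter_comm] at this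
    omega
  obtain ⟨a, a', a'', ha, ha', ha'', n1, n2, n3⟩ := two_lt_card_iff.1 cA
  obtain ⟨e, e', e'', he, he', he'', n4, n5, n6⟩ := two_lt_card_iff.1 cB
  rw [mem_sdiff] at ha ha' ha'' he he' he''
  have ne : ∀ x y, (x ∈ A ∧ x ∉ B) → (y ∈ B ∧ y ∉ A) → x ≠ y := fun x y h1 h2 h => h1.2 (h ▸ h2.1)
  set G := (B.erase e).erase e' with hG
  set G' := (A.erase a'').erase a' with hG'
  have cG : G.card + 2 = k := by
    rw [hG, card_erase_of_mem, card_erase_of_mem he.1]
    · have : 1 < B.card := one_lt_card.2 ⟨e, he.1, e', he'.1, n4⟩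
      omega
    · exact mem_erase.2 ⟨n4.symm, he'.1⟩
  have cG' : G'.card + 2 = k := by
    rw [hG', card_erase_of_mem, card_erase_of_mem ha''.1]
    · have : 1 < A.card := one_lt_card.2 ⟨a'', ha''.1, a', ha'.1, n3.symm⟩
      omega
    · exact mem_erase.2 ⟨n3, ha'.1⟩
  have q1 : a ∉ G := by simp [hG, ha.2]
  have q2 : a' ∉ G := by simp [hG, ha'.2]
  have q3 : e ∉ G := by simp [hG]
  have q4 : e' ∉ G := by simp [hG]
  have p1 : a' ∉ G' := by simp [hG']
  have p2 : a'' ∉ G' := by simp [hG']
  have p3 : e'' ∉ G' := by simp [hG', he''.2]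
  have p4 : e' ∉ G' := by simp [hG', he'.2]
  -- first dependency: i = a, j = e', l = e, p = a'
  obtain ⟨c, hc, c1, c2, c3, c4⟩ := dep hn u q b hle heq G cG a e' e a' (ne _ _ ha he')
    (ne _ _ ha he) n1 n4.symm (ne _ _ ha' he').symm (ne _ _ ha' he).symm q1 q4 q3 q2
  -- second: i = a', j = e'', l = a'', p = e'
  obtain ⟨c', hc', c1', c2', c3', c4'⟩ := dep hn u q b hle heq G' cG' a' e'' a'' e'
    (ne _ _ ha' he'') n3 (ne _ _ ha' he') (ne _ _ ha'' he'').symm n6.symm (ne _ _ ha'' he')
    p1 p3 p2 p4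
  have hb := bil u m (V G a e' e a') (V G' a' e'' a'' e') c c' hc hc'
  have vB : V G a e' e a' 3 = B := by
    show insert e' (insert e G) = B
    rw [hG]
    rw [Finset.insert_comm, insert_erase (mem_erase.2 ⟨n4.symm, he'.1⟩), insert_erase he.1]
  have vA : V G' a' e'' a'' e' 1 = A := by
    show insert a' (insert a'' G') = A
    rw [hG']
    rw [Finset.insert_comm, insert_erase (mem_erase.2 ⟨n3, ha'.1⟩), insert_erase ha''.1]
  have cX : ∀ x, (V G a e' e a' x).card = k := by
    intro x
    fin_cases x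
    · exact card_ins2 cG (ne _ _ ha he') q1 q4
    · exact card_ins2 cG (ne _ _ ha he) q1 q3
    · exact card_ins2 cG n1 q1 q2
    · exact card_ins2 cG n4.symm q4 q3
    · exact card_ins2 cG (ne _ _ ha' he').symm q4 q2
  have cY : ∀ x, (V G' a' e'' a'' e' x).card = k := by
    intro x
    fin_cases x
    · exact card_ins2 cG' (ne _ _ ha' he'') p1 p3
    · exact card_ins2 cG' n3 p1 p2
    · exact card_ins2 cG' (ne _ _ ha' he') p1 p4
    · exact card_ins2 cG' (ne _ _ ha'' he'').symm p3 p2
    · exact card_ins2 cG' n6.symm p3 p4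
  have sX : ∀ x, A ∩ B ⊆ V G a e' e a' x := by
    intro x w hw
    rw [mem_inter] at hw
    have hwG : w ∈ G := by
      rw [hG, mem_erase, mem_erase]
      exact ⟨fun h => he'.2 (h ▸ hw.1), fun h => he.2 (h ▸ hw.1), hw.2⟩
    fin_cases x <;> simp [V, hwG]
  have sY : ∀ x, A ∩ B ⊆ V G' a' e'' a'' e' x := by
    intro x w hw
    rw [mem_inter] at hw
    have hwG : w ∈ G' := by
      rw [hG', mem_erase, mem_erase]
      exact ⟨fun h => ha'.2 (h ▸ hw.2), fun h => ha''.2 (h ▸ hw.2), hw.1⟩
    fin_cases x <;> simp [V, hwG]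
  have w1 : ∀ y, a ∈ V G' a' e'' a'' e' y := by
    intro y
    have : a ∈ G' := by
      rw [hG', mem_erase, mem_erase]
      exact ⟨n1, n2, ha.1⟩
    fin_cases y <;> simp [V, this]
  have w2 : ∀ x, e'' ∈ V G a e' e a' x := by
    intro x
    have : e'' ∈ G := by
      rw [hG, mem_erase, mem_erase]
      exact ⟨n6.symm, n5.symm, he''.1⟩
    fin_cases x <;> simp [V, this]
  have fin : ∀ x y, ¬ (x = 3 ∧ y = 1) →
      m (V G a e' e a' x) ⬝ᵥ u (V G' a' e'' a'' e' y)
      + m (V G' a' e'' a'' e' y) ⬝ᵥ u (V G a e' e a' x) = 0 := by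
    intro x y hxy
    apply ih _ _ (cX x) (cY y)
    apply card_lt_card
    rw [Finset.ssubset_iff_of_subset (fun w hw => mem_inter.2 ⟨sX x hw, sY y hw⟩)]
    -- a witness
    have : ∃ z, z ∉ A ∩ B ∧ z ∈ V G a e' e a' x ∧ z ∈ V G' a' e'' a'' e' y := by
      have nA : a ∉ A ∩ B := fun h => ha.2 (mem_inter.1 h).2
      have nA' : a' ∉ A ∩ B := fun h => ha'.2 (mem_inter.1 h).2
      have nE' : e' ∉ A ∩ B := fun h => he'.2 (mem_inter.1 h).1
      have nE'' : e'' ∉ A ∩ B := fun h => he''.2 (mem_inter.1 h).1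
      by_cases h0 : x = 0
      · exact ⟨a, nA, by rw [h0]; simp [V], w1 y⟩
      by_cases h1 : x = 1
      · exact ⟨a, nA, by rw [h1]; simp [V], w1 y⟩
      by_cases h2 : x = 2
      · exact ⟨a, nA, by rw [h2]; simp [V], w1 y⟩
      by_cases g0 : y = 0
      · exact ⟨e'', nE'', w2 x, by rw [g0]; simp [V]⟩
      by_cases g3 : y = 3
      · exact ⟨e'', nE'', w2 x, by rw [g3]; simp [V]⟩
      by_cases g4 : y = 4
      · exact ⟨e'', nE'', w2 x, by rw [g4]; simp [V]⟩
      by_cases h3 : x = 3
      · have g2 : y = 2 := by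
          have : y ≠ 1 := fun h => hxy ⟨h3, h⟩
          omega
        exact ⟨e', nE', by rw [h3]; simp [V], by rw [g2]; simp [V]⟩
      · have h4 : x = 4 := by omega
        have g12 : y = 1 ∨ y = 2 := by omega
        rcases g12 with g | g
        · exact ⟨a', nA', by rw [h4]; simp [V], by rw [g]; simp [V]⟩
        · exact ⟨a', nA', by rw [h4]; simp [V], by rw [g]; simp [V]⟩
    obtain ⟨z, hz1, hz2, hz3⟩ := this
    exact ⟨z, mem_inter.2 ⟨hz2, hz3⟩, hz1⟩
  have hsum : ∑ x, ∑ y, c x * c' y * (m (V G a e' e a' x) ⬝ᵥ u (V G' a' e'' a'' e' y)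
      + m (V G' a' e'' a'' e' y) ⬝ᵥ u (V G a e' e a' x))
      = c 3 * c' 1 * (m (V G a e' e a' 3) ⬝ᵥ u (V G' a' e'' a'' e' 1)
      + m (V G' a' e'' a'' e' 1) ⬝ᵥ u (V G a e' e a' 3)) := by
    rw [Finset.sum_eq_single 3]
    · rw [Finset.sum_eq_single 1]
      · intro y _ hy
        rw [fin 3 y (fun h => hy h.2), mul_zero]
      · intro h; exact absurd (mem_univ _) h
    · intro x _ hx
      apply sum_eq_zero
      intro y _
      rw [fin x y (fun h => hx h.1), mul_zero]
    · intro h; exact absurd (mem_univ _) h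
  rw [hsum, vB, vA] at hb
  have h3 : c 3 * c' 1 ≠ 0 := mul_ne_zero c3.ne c1'.ne'
  have := (mul_eq_zero.1 hb).resolve_left h3
  linarith

end

/-- **Rigidity.** -/
theorem rigid {n k d : ℕ} (hn : n = d + 1) (hk : 2 ≤ k) (hkn : 2 * k ≤ n)
    (u : Finset (Fin n) → (Fin d → ℚ)) (q : Fin n × Bool → (Fin d → ℚ)) (b : Finset (Fin n) → ℚ)
    (hle : ∀ A : Finset (Fin n), A.card = k → ∀ ρ, q ρ ⬝ᵥ u A ≤ b A)
    (heq : ∀ A : Finset (Fin n), A.card = k → ∀ ρ, q ρ ⬝ᵥ u A = b A ↔ ρ ∈ sgn A)
    (m : Finset (Fin n) → (Fin d → ℚ))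
    (h0 : ∀ A : Finset (Fin n), A.card = k → m A ⬝ᵥ u A = 0)
    (h1 : ∀ A B : Finset (Fin n), A.card = k → B.card = k → (A ∩ B).card + 1 = k →
      m A ⬝ᵥ u B + m B ⬝ᵥ u A = 0) :
    ∀ A B : Finset (Fin n), A.card = k → B.card = k → m A ⬝ᵥ u B + m B ⬝ᵥ u A = 0 := by
  have main : ∀ r : ℕ, ∀ A B : Finset (Fin n), A.card = k → B.card = k → (A ∩ B).card + r = k →
      m A ⬝ᵥ u B + m B ⬝ᵥ u A = 0 := by
    intro r
    induction r using Nat.strong_induction_on with
    | _ r ih =>
      intro A B hA hB hr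
      rcases Nat.lt_or_ge r 3 with h | h
      · interval_cases r
        · have e1 : A ∩ B = A := eq_of_subset_of_card_le inter_subset_left (by omega)
          have e2 : A ∩ B = B := eq_of_subset_of_card_le inter_subset_right (by omega)
          have : A = B := e1.symm.trans e2
          rw [← this, h0 A hA, add_zero]
        · exact h1 A B hA hB hr
        · exact dist2 hn u q b hle heq m h0 h1 A B hA hB hr
      · apply step hn u q b hle heq m A B hA hB (by omega)
        intro X Y hX hY hlt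
        have hXY : (X ∩ Y).card ≤ k := by rw [← hX]; exact card_le_card inter_subset_left
        exact ih (k - (X ∩ Y).card) (by omega) X Y hX hY (by omega)
  intro A B hA hB
  have hAB : (A ∩ B).card ≤ k := by rw [← hA]; exact card_le_card inter_subset_left
  exact main (k - (A ∩ B).card) A B hA hB (by omega)

end Pool.Agent.Helper67.CB
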